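import Pool.Agent.Q284.M.Mean

/-!
# From the system of primes to the L-function of `H^i(X)`
-/

set_option autoImplicit false

open MeasureTheory Filter Topology Set Complex NumberField IsDedekindDomain
open Pool.Agent.TH942.ES
open Pool.Agent.TH270.MS
open Pool.Agent.TH958.BV
open Pool.Agent.H921R2.TatePole (nm two_le_nm nm_summable)

namespace Pool.Agent.Q284.M

lemma tend_left (c : ℝ) : Tendsto (fun s : ℂ => (c : ℂ) + s) (𝓝[≠] 0) (𝓝[≠] (c : ℂ)) := by
  refine tendsto_nhdsWithin_iff.2 ⟨?_, ?_⟩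
  · have h : Tendsto (fun s : ℂ => (c : ℂ) + s) (𝓝 0) (𝓝 ((c : ℂ) + 0)) :=
      (continuous_const.add continuous_id).tendsto 0
    rw [add_zero] at h
    exact h.mono_left nhdsWithin_le_nhds
  · filter_upwards [self_mem_nhdsWithin] with s hs
    have hs0 : s ≠ 0 := hs
    simpa using hs0

lemma tend_right (c : ℝ) : Tendsto (fun s : ℂ => s - (c : ℂ)) (𝓝[≠] (c : ℂ)) (𝓝[≠] 0) := by
  refine tendsto_nhdsWithin_iff.2 ⟨?_, ?_⟩
  · have h : Tendsto (fun s : ℂ => s - (c : ℂ)) (𝓝 (c : ℂ)) (𝓝 ((c : ℂ) - c)) :=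
      (continuous_id.sub continuous_const).tendsto _
    rw [sub_self] at h
    exact h.mono_left nhdsWithin_le_nhds
  · filter_upwards [self_mem_nhdsWithin] with s hs
    have hs0 : s ≠ c := hs
    simpa [sub_eq_zero] using hs0

lemma lead_iff {F : ℂ → ℂ} {c : ℝ} {m : ℕ} {A : ℂ} :
    Tendsto (fun s : ℂ => F ((c : ℂ) + s) / s ^ m) (𝓝[≠] 0) (𝓝 A) ↔
      Tendsto (fun s : ℂ => F s / (s - c) ^ m) (𝓝[≠] (c : ℂ)) (𝓝 A) := by
  constructor
  · intro h
    refine (h.comp (tend_right c)).congr fun s => ?_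
    simp only [Function.comp_apply, add_sub_cancel]
  · intro h
    refine (h.comp (tend_left c)).congr fun s => ?_
    simp only [Function.comp_apply, add_sub_cancel_left]

lemma ord_iff {F : ℂ → ℂ} {c : ℝ} (h : AnalyticAt ℂ F c) {m : ℕ} :
    meromorphicOrderAt (fun s => F ((c : ℂ) + s)) 0 = (m : ℤ) ↔
      analyticOrderAt F (c : ℂ) = m := by
  have h1 : meromorphicOrderAt (fun s => F ((c : ℂ) + s)) 0 = meromorphicOrderAt F (c : ℂ) := by
    have h2 := meromorphicOrderAt_comp_add_const_eq_meromorphicOrderAt (𝕜 := ℂ) (E := ℂ)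
      (x := 0) (c := (c : ℂ)) (f := F)
    rw [zero_add] at h2
    rw [← h2]
    congr 1
    funext s
    simp only [Function.comp_apply, add_comm]
  rw [h1, h.meromorphicOrderAt_eq]
  cases hn : analyticOrderAt F (c : ℂ) with
  | top => simp
  | coe k =>
    rw [ENat.map_natCast]
    constructor
    · intro h2
      have h3 : (k : ℤ) = m := by exact_mod_cast h2
      have h4 : k = m := by exact_mod_cast h3
      rw [h4]
    · intro h2
      have h4 : k = m := by exact_mod_cast h2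
      rw [h4]

variable {K : Type} [Field K] [NumberField K] {N : ℕ} {i : ℕ}
  {P : HeightOneSpectrum (𝓞 K) → Prop} {α : HeightOneSpectrum (𝓞 K) → Fin N → ℂ}

/-- the factors at the centre do not vanish -/
lemma factor_ne (E : Sys (NN P) (al i α)) (v : {v // P v}) (j : Fin N) :
    1 - α v.1 j * (nm v.1 : ℂ) ^ (-((((i : ℝ) + 1) / 2 : ℝ) : ℂ)) ≠ 0 := by
  have h2 := factor_eq' (i := i) (α := α) v j 0
  have h3 : xv (NN P) v 0 = 1 := by
    unfold xv
    simp
  rw [h3, mul_one, add_zero] at h2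
  rw [← h2]
  intro h0
  have h4 : zv (NN P) (al i α) v j = 1 := (sub_eq_zero.1 h0).symm
  have h5 : ‖zv (NN P) (al i α) v j‖ < 1 := by
    have hq2 : (2 : ℝ) ≤ (NN P v : ℝ) := by exact_mod_cast E.two_le v
    have hs : 1 < √(NN P v : ℝ) := by
      rw [Real.lt_sqrt (by norm_num)]
      linarith
    unfold zv
    rw [norm_div, Complex.norm_real, Real.norm_of_nonneg (by linarith), div_lt_one (by linarith)]
    exact (E.le v j).trans_lt hs
  rw [h4, norm_one] at h5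
  exact lt_irrefl _ h5

/-- the logarithm of the local factor at the centre -/
lemma cv_frob (E : Sys (NN P) (al i α)) (v : {v // P v}) : cv (NN P) (al i α) v =
    Real.log ‖∏ j, (1 - α v.1 j * (nm v.1 : ℂ) ^ (-((((i : ℝ) + 1) / 2 : ℝ) : ℂ)))‖ := by
  have h1 : ∀ j, zv (NN P) (al i α) v j = α v.1 j * (nm v.1 : ℂ) ^ (-((((i : ℝ) + 1) / 2 : ℝ) : ℂ)) := by
    intro j
    have h2 := factor_eq' (i := i) (α := α) v j 0
    have h3 : xv (NN P) v 0 = 1 := by
      unfold xv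
      simp
    rw [h3, mul_one, add_zero] at h2
    exact h2
  unfold cv
  rw [Complex.re_sum, norm_prod, Real.log_prod]
  · refine Finset.sum_congr rfl fun j _ => ?_
    rw [Complex.log_re, h1]
  · intro j _
    exact norm_ne_zero_iff.2 (factor_ne E v j)

/-- the partial Euler product at the centre over the primes of norm at most `y` -/
noncomputable def prodC (P : HeightOneSpectrum (𝓞 K) → Prop) (i : ℕ)
    (α : HeightOneSpectrum (𝓞 K) → Fin N → ℂ) (y : ℝ) : ℂ :=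
  ∏ᶠ (v : {v // P v}) (_ : (nm v.1 : ℝ) ≤ y),
    ∏ j, (1 - α v.1 j * (nm v.1 : ℂ) ^ (-((((i : ℝ) + 1) / 2 : ℝ) : ℂ)))⁻¹

lemma log_prodC (E : Sys (NN P) (al i α)) (y : ℝ) : Real.log ‖prodC P i α y‖ =
    -∑ᶠ (v : {v // P v}) (_ : (NN P v : ℝ) ≤ y), cv (NN P) (al i α) v := by
  have hfin := E.fin_le y
  have e1 : prodC P i α y = ∏ v ∈ hfin.toFinset,
      ∏ j, (1 - α v.1 j * (nm v.1 : ℂ) ^ (-((((i : ℝ) + 1) / 2 : ℝ) : ℂ)))⁻¹ :=
    finprod_mem_eq_finite_toFinset_prod (fun v : {v // P v} =>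
      ∏ j, (1 - α v.1 j * (nm v.1 : ℂ) ^ (-((((i : ℝ) + 1) / 2 : ℝ) : ℂ)))⁻¹) hfin
  have e2 : (∑ᶠ (v : {v // P v}) (_ : (NN P v : ℝ) ≤ y), cv (NN P) (al i α) v) =
      ∑ v ∈ hfin.toFinset, cv (NN P) (al i α) v :=
    finsum_mem_eq_finite_toFinset_sum (fun v : {v // P v} => cv (NN P) (al i α) v) hfin
  rw [e1, e2, norm_prod, Real.log_prod, ← Finset.sum_neg_distrib]
  · refine Finset.sum_congr rfl fun v _ => ?_
    rw [cv_frob E, Finset.prod_inv_distrib, norm_inv, Real.log_inv]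
  · intro v _
    rw [Finset.prod_inv_distrib]
    exact norm_ne_zero_iff.2 (inv_ne_zero (Finset.prod_ne_zero_iff.2 fun j _ => factor_ne E v j))

/-- the incomplete `L`-function of `H^i(X)` -/
noncomputable def LX (P : HeightOneSpectrum (𝓞 K) → Prop)
    (α : HeightOneSpectrum (𝓞 K) → Fin N → ℂ) (s : ℂ) : ℂ :=
  ∏' v : {v // P v}, ∏ j, (1 - α v.1 j * (nm v.1 : ℂ) ^ (-s))⁻¹

lemma LX_eq (s : ℂ) : LX P α ((((i : ℝ) + 1) / 2 : ℝ) + s) = Pool.Agent.TH942.ES.LE (NN P) (al i α) s :=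
  (LE_frob s).symm

/-- the data of the mean square theorem -/
theorem mc_of {n d : ℕ} {X : Set (MvPolynomial (Fin n) (𝓞 K))} (hi : i ≤ 2 * d)
    (hα : ∀ v, P v → IsFrobenius X d i v (α v)) {F : ℂ → ℂ} {η C : ℝ} {κ : ℕ} (hη : 0 < η)
    (hL : ∀ s : ℂ, (i : ℝ) / 2 + 1 < s.re → F s = LX P α s)
    (hd : ∀ s : ℂ, ((i : ℝ) + 1) / 2 - η < s.re → DifferentiableAt ℂ F s)
    (hg : ∀ s : ℂ, ((i : ℝ) + 1) / 2 - η < s.re → ‖F s‖ ≤ C * (1 + ‖s‖) ^ κ) :
    Mc (NN P) (al i α) (fun s => F ((((i : ℝ) + 1) / 2 : ℝ) + s))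
      (fun s => F ((((i : ℝ) + 1) / 2 : ℝ) + s)) 0 κ η
        (C * (1 + ((i : ℝ) + 1) / 2) ^ κ) where
  E := frob_sys hα hi
  hreal := frob_real hα hi
  hη := hη
  hG := fun s hs => by
    have h1 : DifferentiableAt ℂ F ((((i : ℝ) + 1) / 2 : ℝ) + s) := by
      refine hd _ ?_
      rw [Complex.add_re, Complex.ofReal_re]
      linarith
    exact h1.comp s ((differentiableAt_const _).add differentiableAt_id)
  hgrow := fun s hs => by
    have hc : (0 : ℝ) ≤ ((i : ℝ) + 1) / 2 := by positivity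
    have h1 := hg ((((i : ℝ) + 1) / 2 : ℝ) + s) (by
      rw [Complex.add_re, Complex.ofReal_re]
      linarith)
    have hC : 0 ≤ C := by
      by_contra h
      push Not at h
      have h2 : C * (1 + ‖((((i : ℝ) + 1) / 2 : ℝ) : ℂ) + s‖) ^ κ < 0 :=
        mul_neg_of_neg_of_pos h (by positivity)
      linarith [norm_nonneg (F ((((i : ℝ) + 1) / 2 : ℝ) + s))]
    refine h1.trans ?_
    rw [mul_assoc, ← mul_pow]
    refine mul_le_mul_of_nonneg_left (pow_le_pow_left₀ (by positivity) ?_ κ) hC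
    have h2 := norm_add_le ((((i : ℝ) + 1) / 2 : ℝ) : ℂ) s
    rw [Complex.norm_real, Real.norm_of_nonneg hc] at h2
    nlinarith [norm_nonneg s]
  hΨ := fun s _ _ => by rw [pow_zero, one_mul]
  hL := fun s hs => by
    rw [← LX_eq]
    refine hL _ ?_
    rw [Complex.add_re, Complex.ofReal_re]
    linarith

end Pool.Agent.Q284.M
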