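import Pool.Agent.Q284.M.Law
import Pool.Agent.Q284.M.Trans
import Pool.Agent.Q284.K.Curve

/-!
# Finite-range laws for a system of primes
-/

set_option autoImplicit false

open MeasureTheory Filter Topology Set Complex
open Pool.Agent.TH942.ES
open Pool.Agent.TH270.MS
open Pool.Agent.TH270.RS (Mw cut Lw Ad cS' dat' Mw_eq exists_cor)
open Pool.Agent.TH942.LS (Wt Dat S no_zeros Cont)

namespace Pool.Agent.Q284.M

variable {X : Type} {d : ℕ} {N : X → ℕ} {α : X → Fin d → ℂ} {Ψ : ℂ → ℂ} {m κ : ℕ} {η C : ℝ}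

/-- the admissible weights of the library -/
theorem ad_of {w : ℝ → ℝ} {β : ℝ} (h : Pool.Agent.Q284.K.FiniteRange w β)
    (hn : Pool.Agent.Q284.K.Normalized w β) : ∃ W, Ad w W β := by
  obtain ⟨W, hW⟩ := h.bounded
  refine ⟨W, ⟨h.meas.indicator measurableSet_Ioc, fun u => ?_, h.pos, fun u hu => ?_⟩,
    fun κ hκ h1 => ?_, ?_⟩
  · unfold cut
    rw [Set.indicator_apply]
    split_ifs
    · exact hW u
    · rw [abs_zero]
      exact (abs_nonneg _).trans (hW 0)
  · unfold cut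
    exact Set.indicator_of_notMem (fun h2 => not_lt.2 h2.2 hu) _
  · refine h.ess (max κ 0) (max_lt hκ h.pos) ?_
    filter_upwards [h1] with u hu hu2
    have h2 := hu ⟨(le_max_left _ _).trans_lt hu2.1, hu2.2⟩
    unfold cut at h2
    rwa [Set.indicator_of_mem (show u ∈ Ioc (0 : ℝ) β from
      ⟨(le_max_right _ _).trans_lt hu2.1, hu2.2.le⟩)] at h2
  · refine IntegrableOn.congr_fun (f := fun u : ℝ => |w u - 1| / u) hn (fun u hu => ?_)
      measurableSet_Ioo
    simp only
    unfold cut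
    rw [Set.indicator_of_mem (show u ∈ Ioc (0 : ℝ) β from ⟨hu.1, hu.2.le⟩)]

/-- the admissible weights, without normalisation: no zeros from slow growth, quantitative -/
theorem omega (H : Lw N α Ψ m) {w : ℝ → ℝ} {β : ℝ} (h : Pool.Agent.Q284.K.FiniteRange w β)
    {s : ℂ} (hs : 0 < s.re) (h0 : Ψ s = 0) {a : ℝ} (B : ℝ) (ha : a < β * s.re) :
    ∃ᶠ Y : ℝ in atTop, B * Y ^ a < |Mw N α w β Y| := by
  intro hcon
  obtain ⟨W, hW⟩ := h.bounded
  have hwt : Wt (cut w β) W β := by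
    refine ⟨h.meas.indicator measurableSet_Ioc, fun u => ?_, h.pos, fun u hu => ?_⟩
    · unfold cut
      rw [Set.indicator_apply]
      split_ifs
      · exact hW u
      · rw [abs_zero]
        exact (abs_nonneg _).trans (hW 0)
    · unfold cut
      exact Set.indicator_of_notMem (fun h2 => not_lt.2 h2.2 hu) _
  have htop : ∀ κ, κ < β → ¬ ∀ᵐ x, x ∈ Ioo κ β → cut w β x = 0 := by
    intro κ hκ h1
    refine h.ess (max κ 0) (max_lt hκ h.pos) ?_
    filter_upwards [h1] with u hu hu2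
    have h2 := hu ⟨(le_max_left _ _).trans_lt hu2.1, hu2.2⟩
    unfold cut at h2
    rwa [Set.indicator_of_mem (show u ∈ Ioc (0 : ℝ) β from
      ⟨(le_max_right _ _).trans_lt hu2.1, hu2.2.le⟩)] at h2
  obtain ⟨e, g, he, Cr⟩ := exists_cor H.E H.hreal H.hd H.hL H.h0 H.hm
  have hβ := h.pos
  set θ : ℝ := max (a / β) 0 with hθ
  have hθ0 : 0 ≤ θ := le_max_right _ _
  have hθs : θ < s.re := max_lt (by rw [div_lt_iff₀ hβ]; linarith) hs
  have hcont : Cont (lamS N e) (cS' N α e) 1 θ Ψ (fun _ => 0) := by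
    have c0 := Cr.cont
    exact ⟨hθ0, fun z hz => c0.Ψd z (hθ0.trans_lt hz), fun z _ => differentiableAt_const _,
      c0.ne, c0.eq⟩
  refine no_zeros Cr.D hwt hcont htop (fun a' ha' => ?_) hθs h0
  have h1 : ∀ᶠ Y : ℝ in atTop, |Mw N α w β Y| ≤ B * Y ^ a := by
    filter_upwards [hcon] with Y hY
    exact not_lt.1 hY
  obtain ⟨T₀, hT₀⟩ := ((Real.tendsto_exp_atTop.eventually h1).and
    (eventually_gt_atTop 0)).exists_forall_of_atTop
  refine ⟨|B|, T₀, fun T hT => ?_⟩
  obtain ⟨h2, h3⟩ := hT₀ T hT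
  rw [Mw_eq H.E he hwt (Real.one_lt_exp_iff.2 h3), Real.log_exp, abs_neg,
    Real.rpow_def_of_pos (Real.exp_pos T), Real.log_exp] at h2
  refine h2.trans ?_
  have h4 : T * a ≤ a' * T := by
    have h5 : a ≤ β * θ := by
      have : a / β ≤ θ := le_max_left _ _
      rwa [div_le_iff₀ hβ, mul_comm] at this
    nlinarith
  calc B * Real.exp (T * a) ≤ |B| * Real.exp (T * a) :=
        mul_le_mul_of_nonneg_right (le_abs_self B) (Real.exp_pos _).le
    _ ≤ |B| * Real.exp (a' * T) :=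
        mul_le_mul_of_nonneg_left (Real.exp_le_exp.2 h4) (abs_nonneg B)

/-- the prime powers have finitely many logarithms below a bound -/
theorem fn_lamP (E : Sys N α) : Fn (lamP N) where
  fin := fun V => by
    refine (E.finS (Real.exp V)).subset fun p hp => ?_
    rw [Set.mem_ofPred_eq] at hp ⊢
    have hN : (0 : ℝ) < (N p.1 : ℝ) ^ (p.2 + 1) := by
      have := E.Npos p.1
      positivity
    rw [← Real.log_le_iff_le_exp hN, Real.log_pow]
    unfold lamP at hp
    push_cast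
    exact hp
  pos := fun p => by
    have := E.logN p.1
    unfold lamP
    positivity

theorem pl_GV (E : Sys N α) (v : ℝ) : Pl N α (Real.exp v) = GV (lamP N) (cP N α) v := by
  unfold Pl GV
  refine finsum_congr fun p => ?_
  have hN : (0 : ℝ) < (N p.1 : ℝ) ^ (p.2 + 1) := by
    have := E.Npos p.1
    positivity
  have h1 : ((N p.1 : ℝ) ^ (p.2 + 1) ≤ Real.exp v) ↔ lamP N p ≤ v := by
    rw [← Real.log_le_iff_le_exp hN, Real.log_pow]
    unfold lamP
    push_cast
    rfl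
  by_cases h : (N p.1 : ℝ) ^ (p.2 + 1) ≤ Real.exp v
  · rw [finsum_eq_if, finsum_eq_if, if_pos h, if_pos (h1.1 h)]
  · rw [finsum_eq_if, finsum_eq_if, if_neg h, if_neg fun h2 => h (h1.2 h2)]

theorem mw_meanW (E : Sys N α) (w : ℝ → ℝ) {β : ℝ} (T : ℝ) :
    Mw N α w β (Real.exp T) = meanW (lamP N) (cP N α) w β T := by
  unfold Mw meanW
  refine finsum_congr fun p => ?_
  have hN : (0 : ℝ) < (N p.1 : ℝ) ^ (p.2 + 1) := by
    have := E.Npos p.1
    positivity
  have h1 : ((N p.1 : ℝ) ^ (p.2 + 1) ≤ Real.exp T ^ β) ↔ lamP N p ≤ T * β := by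
    rw [← Real.exp_mul, ← Real.log_le_iff_le_exp hN, Real.log_pow]
    unfold lamP
    push_cast
    rfl
  rw [Real.log_exp]
  by_cases h : (N p.1 : ℝ) ^ (p.2 + 1) ≤ Real.exp T ^ β
  · rw [finsum_eq_if, finsum_eq_if, if_pos h, if_pos (h1.1 h)]
    rfl
  · rw [finsum_eq_if, finsum_eq_if, if_neg h, if_neg fun h2 => h (h1.2 h2)]

/-- **the law for all Lipschitz weights** -/
theorem lip_law (H : Mc N α Ψ Ψ 0 κ η C) (hz : ∀ s : ℂ, 0 < s.re → Ψ s ≠ 0) {A : ℝ} (hA : 0 < A)
    (hlead : Tendsto (fun s => Ψ s / s ^ m) (𝓝[≠] 0) (𝓝 (A : ℂ)))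
    {w : ℝ → ℝ} {K : NNReal} {β : ℝ} (hw : LipschitzWith K w) (h0 : w 0 = 1) (hβ : 0 < β)
    (hs : ∀ u, β < u → w u = 0) :
    Tendsto (fun Y : ℝ => Mw N α w β Y + m * Real.log (Real.log Y)) atTop
      (𝓝 (Real.log A - m * (Real.eulerMascheroniConstant + Pool.Agent.Q284.K.J w))) := by
  have t := (H.tfae_lead_real (m : ℝ) hA).out 0 2
  have h1 := t.1 ⟨hz, m, rfl, hlead⟩
  have h2 : Tendsto (fun V : ℝ => (∫ v in (1 : ℝ)..V, |GV (lamP N) (cP N α) v -
      ((-(m : ℝ)) * Real.log v + (Real.log A - m * Real.eulerMascheroniConstant))|) / V) atTop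
        (𝓝 0) := by
    refine (h1.comp Real.tendsto_exp_atTop).congr' ?_
    filter_upwards [eventually_ge_atTop 1] with V hV
    simp only [Function.comp_apply]
    rw [Real.log_exp]
    congr 1
    have h3 := cov_ii (fun t => |DvR N α (m : ℝ) A (Real.exp t)|) hV
    have h4 : ∫ y in Real.exp 1..Real.exp V, |DvR N α (m : ℝ) A y| / y =
        ∫ y in Real.exp 1..Real.exp V, |DvR N α (m : ℝ) A (Real.exp (Real.log y))| / y := by
      refine intervalIntegral.integral_congr fun y hy => ?_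
      rw [uIcc_of_le (Real.exp_le_exp.2 hV)] at hy
      have hy0 : 0 < y := (Real.exp_pos 1).trans_le hy.1
      rw [Real.exp_log hy0]
    rw [h4, h3]
    refine intervalIntegral.integral_congr fun t _ => ?_
    unfold DvR
    rw [pl_GV H.E, Real.log_exp]
    congr 1
    ring
  have h3 := (fn_lamP H.E).law h2 hw h0 hβ hs
  have h4 := h3.comp Real.tendsto_log_atTop
  have e1 : -(m : ℝ) * Pool.Agent.Q284.K.J w +
      (Real.log A - m * Real.eulerMascheroniConstant) =
      Real.log A - m * (Real.eulerMascheroniConstant + Pool.Agent.Q284.K.J w) := by ring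
  rw [e1] at h4
  refine h4.congr' ?_
  filter_upwards [eventually_gt_atTop 0] with Y hY
  simp only [Function.comp_apply]
  rw [← mw_meanW H.E w (Real.log Y), Real.exp_log hY]
  ring

end Pool.Agent.Q284.M
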