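import Pool.Agent.TH958.BV.Weights
import Pool.Agent.TH958.BV.Defs
import Pool.Agent.TH942.ES.NF
import Pool.Agent.TH942.ES.StarExt

/-!
# The eigenvalues of Frobenius of a projective variety over a number field as a system of primes
-/

set_option autoImplicit false

open NumberField IsDedekindDomain Complex
open Pool.Agent.TH958.BV
open Pool.Agent.H921R2.TatePole (nm two_le_nm nm_summable)
open Pool.Agent.TH942.ES

namespace Pool.Agent.Q284.M

variable {K : Type} [Field K] [NumberField K] {n : ℕ} {X : Set (MvPolynomial (Fin n) (𝓞 K))}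
  {d i N : ℕ} {v : HeightOneSpectrum (𝓞 K)}

/-- the residue field has finite extensions of every degree -/
lemma exists_ext (v : HeightOneSpectrum (𝓞 K)) {e : ℕ} (he : 1 ≤ e) :
    ∃ (κ : Type) (_ : Field κ) (_ : Finite κ) (φ : 𝓞 K →+* κ), RingHom.ker φ = v.asIdeal ∧
      Nat.card κ = Ideal.absNorm v.asIdeal ^ e := by
  have hmax : v.asIdeal.IsMaximal := v.isMaximal
  let _ : Field (𝓞 K ⧸ v.asIdeal) := Ideal.Quotient.field v.asIdeal
  have h2 := two_le_nm v
  have hcard : Nat.card (𝓞 K ⧸ v.asIdeal) = Ideal.absNorm v.asIdeal := by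
    rw [Ideal.absNorm_apply, Submodule.cardQuot_apply]
  have hfin : Finite (𝓞 K ⧸ v.asIdeal) := by
    refine Nat.finite_of_card_ne_zero ?_
    rw [hcard]
    unfold nm at h2
    omega
  set p := ringChar (𝓞 K ⧸ v.asIdeal) with hp
  have hchar : CharP (𝓞 K ⧸ v.asIdeal) p := ringChar.charP _
  have hprime : Fact p.Prime := ⟨CharP.char_is_prime (𝓞 K ⧸ v.asIdeal) p⟩
  have hne : NeZero e := ⟨by omega⟩
  refine ⟨FiniteField.Extension (𝓞 K ⧸ v.asIdeal) p e, inferInstance, inferInstance,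
    (algebraMap (𝓞 K ⧸ v.asIdeal) (FiniteField.Extension (𝓞 K ⧸ v.asIdeal) p e)).comp
      (Ideal.Quotient.mk v.asIdeal), ?_, ?_⟩
  · ext x
    rw [RingHom.mem_ker, RingHom.comp_apply, map_eq_zero_iff _ (RingHom.injective _),
      Ideal.Quotient.eq_zero_iff_mem]
  · rw [FiniteField.natCard_extension, hcard]

/-- the eigenvalues are stable under complex conjugation -/
lemma conj_stable {α : Fin N → ℂ} (h : IsFrobenius X d i v α) (hi : i ≤ 2 * d) :
    (Finset.univ.val.map α).map (starRingEnd ℂ) = Finset.univ.val.map α := by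
  obtain ⟨β, h1, h2, h3⟩ := h
  have hq : (1 : ℝ) < (Ideal.absNorm v.asIdeal : ℝ) := by
    have := two_le_nm v
    unfold nm at this
    exact_mod_cast this
  have key := weights_unique (Ideal.absNorm v.asIdeal : ℝ) hq (2 * d + 1)
    (fun k => (β k).map (starRingEnd ℂ)) β (fun k z hz => ?_) h2 (fun e he => ?_)
    (i := i) (by omega)
  · rw [← h1]
    exact key
  · obtain ⟨y, hy, rfl⟩ := Multiset.mem_map.1 hz
    rw [RCLike.norm_conj]
    exact h2 k y hy
  · obtain ⟨κ, _, _, φ, hker, hcard⟩ := exists_ext v he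
    have h4 := h3 κ φ e hker hcard
    have h5 : ((Ideal.absNorm v.asIdeal : ℂ) ^ e - 1) ≠ 0 := by
      have h6 : (1 : ℕ) < Ideal.absNorm v.asIdeal ^ e := by
        refine Nat.one_lt_pow (by omega) ?_
        exact_mod_cast hq
      have h7 : ((Ideal.absNorm v.asIdeal : ℂ) ^ e) ≠ 1 := by exact_mod_cast h6.ne'
      exact sub_ne_zero.2 h7
    have h6 := congrArg (starRingEnd ℂ) h4
    rw [map_natCast, map_mul, map_sub, map_pow, map_natCast, map_one, h4] at h6
    have h7 := (mul_left_cancel₀ h5 h6).symm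
    rw [map_sum] at h7
    rw [← h7]
    refine Finset.sum_congr rfl fun k _ => ?_
    rw [map_mul, map_pow, map_neg, map_one, map_multiset_sum, Multiset.map_map, Multiset.map_map]
    congr 3
    funext z
    simp only [Function.comp_apply, map_pow]

/-- sums over the eigenvalues of functions commuting with conjugation are real -/
lemma real_sum {α : Fin N → ℂ} (h : IsFrobenius X d i v α) (hi : i ≤ 2 * d) {f : ℂ → ℂ}
    (hf : ∀ j, f ((starRingEnd ℂ) (α j)) = (starRingEnd ℂ) (f (α j))) :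
    (∑ j, f (α j)).im = 0 := by
  have h1 := conj_stable h hi
  have e1 : ∑ j, f (α j) = ((Finset.univ.val.map α).map f).sum := by
    rw [Multiset.map_map]
    rfl
  have e2 : (starRingEnd ℂ) (∑ j, f (α j)) = ∑ j, f (α j) := by
    rw [e1, map_multiset_sum]
    conv_rhs => rw [← h1]
    rw [Multiset.map_map, Multiset.map_map, Multiset.map_map, Multiset.map_map]
    congr 1
    refine Multiset.map_congr rfl fun j _ => ?_
    simp only [Function.comp_apply]
    exact (hf j).symm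
  exact Complex.conj_eq_iff_im.1 e2

lemma norm_frob {α : Fin N → ℂ} (h : IsFrobenius X d i v α) (j : Fin N) :
    ‖α j‖ = (nm v : ℝ) ^ ((i : ℝ) / 2) := by
  obtain ⟨β, h1, h2, -⟩ := h
  refine h2 i (α j) ?_
  rw [h1]
  exact Multiset.mem_map_of_mem _ (Finset.mem_univ_val j)

/-- the normalised eigenvalues -/
noncomputable def al {P : HeightOneSpectrum (𝓞 K) → Prop} (i : ℕ)
    (α : HeightOneSpectrum (𝓞 K) → Fin N → ℂ) (v : {v // P v}) (j : Fin N) : ℂ :=
  α v.1 j / (((nm v.1 : ℝ) ^ ((i : ℝ) / 2) : ℝ) : ℂ)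

/-- the norm on the set of good primes -/
noncomputable def NN (P : HeightOneSpectrum (𝓞 K) → Prop) (v : {v // P v}) : ℕ := nm v.1

variable {P : HeightOneSpectrum (𝓞 K) → Prop} {α : HeightOneSpectrum (𝓞 K) → Fin N → ℂ}

lemma zv_eq (v : {v // P v}) (j : Fin N) :
    zv (NN P) (al i α) v j = α v.1 j * (((nm v.1 : ℝ) ^ (-((i : ℝ) + 1) / 2) : ℝ) : ℂ) := by
  have hq : (0 : ℝ) < nm v.1 := by
    have := two_le_nm v.1
    positivity
  unfold zv al NN
  rw [div_div, div_eq_mul_inv, ← Complex.ofReal_mul, ← Complex.ofReal_inv]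
  congr 2
  rw [Real.sqrt_eq_rpow, ← Real.rpow_add hq, ← Real.rpow_neg hq.le]
  congr 1
  ring

/-- **the system of primes of `H^i(X)`** -/
theorem frob_sys (hα : ∀ v, P v → IsFrobenius X d i v (α v)) (hi : i ≤ 2 * d) :
    Sys (NN P) (al i α) := by
  refine nf_sys P (al i α) (fun v j => ?_) fun v => ?_
  · have hq : (0 : ℝ) < nm v.1 := by
      have := two_le_nm v.1
      positivity
    have h0 : 0 < (nm v.1 : ℝ) ^ ((i : ℝ) / 2) := by positivity
    unfold al
    rw [norm_div, Complex.norm_real, Real.norm_of_nonneg h0.le, norm_frob (hα v.1 v.2) j,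
      div_self h0.ne']
  · have hq2 : (2 : ℝ) ≤ nm v.1 := by exact_mod_cast two_le_nm v.1
    have hs : 1 < √(nm v.1 : ℝ) := by
      rw [Real.lt_sqrt (by norm_num)]
      linarith
    have h0 : 0 < (nm v.1 : ℝ) ^ ((i : ℝ) / 2) := by positivity
    refine real_sum (f := fun z => log (1 - z / (((nm v.1 : ℝ) ^ ((i : ℝ) / 2) : ℝ) : ℂ) /
      ((√(nm v.1 : ℝ) : ℝ) : ℂ))) (hα v.1 v.2) hi fun j => ?_
    have h1 : ‖α v.1 j / (((nm v.1 : ℝ) ^ ((i : ℝ) / 2) : ℝ) : ℂ) /
        ((√(nm v.1 : ℝ) : ℝ) : ℂ)‖ < 1 := by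
      rw [norm_div, norm_div, Complex.norm_real, Real.norm_of_nonneg h0.le,
        norm_frob (hα v.1 v.2) j, div_self h0.ne', Complex.norm_real,
        Real.norm_of_nonneg (by linarith), div_lt_one (by linarith)]
      exact hs
    have h2 : 0 < (1 - α v.1 j / (((nm v.1 : ℝ) ^ ((i : ℝ) / 2) : ℝ) : ℂ) /
        ((√(nm v.1 : ℝ) : ℝ) : ℂ)).re := by
      rw [Complex.sub_re, Complex.one_re]
      have := (Complex.re_le_norm _).trans_lt h1
      linarith
    have h3 := Complex.log_conj (1 - α v.1 j / (((nm v.1 : ℝ) ^ ((i : ℝ) / 2) : ℝ) : ℂ) /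
        ((√(nm v.1 : ℝ) : ℝ) : ℂ)) (fun h => by
      have := Complex.arg_eq_pi_iff.1 h
      linarith [this.1])
    rw [← h3, map_sub, map_one, map_div₀, map_div₀, Complex.conj_ofReal, Complex.conj_ofReal]

theorem frob_real (hα : ∀ v, P v → IsFrobenius X d i v (α v)) (hi : i ≤ 2 * d)
    (v : {v // P v}) (k : ℕ) : (∑ j, zv (NN P) (al i α) v j ^ k).im = 0 := by
  refine real_sum (f := fun z => (z / (((nm v.1 : ℝ) ^ ((i : ℝ) / 2) : ℝ) : ℂ) /
      ((√(nm v.1 : ℝ) : ℝ) : ℂ)) ^ k) (hα v.1 v.2) hi fun j => ?_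
  rw [map_pow, map_div₀, map_div₀, Complex.conj_ofReal, Complex.conj_ofReal]

/-- the Euler factor at the point `(i + 1)/2 + s` -/
lemma factor_eq' (v : {v // P v}) (j : Fin N) (s : ℂ) :
    zv (NN P) (al i α) v j * xv (NN P) v s =
      α v.1 j * (nm v.1 : ℂ) ^ (-((((i : ℝ) + 1) / 2 : ℝ) + s)) := by
  have hq : (0 : ℝ) < nm v.1 := by
    have := two_le_nm v.1
    positivity
  have hqc : ((nm v.1 : ℝ) : ℂ) ≠ 0 := by exact_mod_cast hq.ne'
  rw [zv_eq, mul_assoc]
  congr 1
  unfold xv NN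
  rw [show ((nm v.1 : ℕ) : ℂ) = ((nm v.1 : ℝ) : ℂ) by push_cast; rfl,
    Complex.cpow_def_of_ne_zero hqc, Complex.ofReal_cpow hq.le, Complex.cpow_def_of_ne_zero hqc,
    ← Complex.exp_add, ← Complex.ofReal_log hq.le]
  congr 1
  push_cast
  ring

/-- the incomplete `L`-function of `H^i(X)` in terms of the system of primes -/
lemma LE_frob (s : ℂ) : LE (NN P) (al i α) s =
    ∏' v : {v // P v}, ∏ j, (1 - α v.1 j * (nm v.1 : ℂ) ^ (-((((i : ℝ) + 1) / 2 : ℝ) + s)))⁻¹ := by
  unfold Pool.Agent.TH942.ES.LE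
  refine tprod_congr fun v => Finset.prod_congr rfl fun j _ => ?_
  rw [factor_eq']

/-- the coefficients of the prime powers -/
lemma cP_frob (v : {v // P v}) (k : ℕ) : cP (NN P) (al i α) (v, k) =
    (∑ j, α v.1 j ^ (k + 1)).re /
      (((k : ℝ) + 1) * (nm v.1 : ℝ) ^ (((k : ℝ) + 1) * (((i : ℝ) + 1) / 2))) := by
  have hq : (0 : ℝ) < nm v.1 := by
    have := two_le_nm v.1
    positivity
  unfold cP
  simp only [zv_eq, mul_pow]
  rw [← Finset.sum_mul, ← Complex.ofReal_pow, Complex.re_mul_ofReal, ← Real.rpow_natCast,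
    ← Real.rpow_mul hq.le]
  have h1 : -((i : ℝ) + 1) / 2 * ((k + 1 : ℕ) : ℝ) = -(((k : ℝ) + 1) * (((i : ℝ) + 1) / 2)) := by
    push_cast
    ring
  rw [h1, Real.rpow_neg hq.le]
  field_simp

end Pool.Agent.Q284.M
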