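import Pool.Agent.Q284.K.Lim

/-!
# The law for Lipschitz weights from the law in the mean, general sums
-/

set_option autoImplicit false

open MeasureTheory Filter Topology Set Classical
open Pool.Agent.Q284.K (J w_near w_abs jf_meas jf_bound jf_int J_eq A_close log_lip parts w_beta ftc
  deriv_int ind_int ind_integrable)

namespace Pool.Agent.Q284.M

variable {Z : Type} {l g : Z → ℝ}

/-- the partial sums -/
noncomputable def GV (l g : Z → ℝ) (v : ℝ) : ℝ := ∑ᶠ (z : Z) (_ : l z ≤ v), g z

/-- the weighted sums of range `β` -/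
noncomputable def meanW (l g : Z → ℝ) (w : ℝ → ℝ) (β T : ℝ) : ℝ :=
  ∑ᶠ (z : Z) (_ : l z ≤ T * β), w (l z / T) * g z

/-- a positive function tending to infinity -/
structure Fn (l : Z → ℝ) : Prop where
  fin : ∀ V : ℝ, {z | l z ≤ V}.Finite
  pos : ∀ z, 0 < l z

section

variable {w : ℝ → ℝ} {K : NNReal} {β T : ℝ}

theorem Fn.G_ind (F : Fn l) {V v : ℝ} (hv : v ≤ V) :
    GV l g v = ∑ z ∈ (F.fin V).toFinset, g z * (if l z ≤ v then 1 else 0) := by
  have h1 : GV l g v = ∑ z ∈ (F.fin v).toFinset, g z :=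
    finsum_mem_eq_finite_toFinset_sum (fun z : Z => g z) (F.fin v)
  rw [h1]
  simp only [mul_ite, mul_one, mul_zero]
  rw [← Finset.sum_filter]
  refine Finset.sum_congr ?_ fun _ _ => rfl
  ext z
  rw [Finset.mem_filter, Set.Finite.mem_toFinset, Set.Finite.mem_toFinset]
  simp only [Set.mem_ofPred_eq]
  exact ⟨fun h => ⟨h.trans hv, h⟩, fun h => h.2⟩

theorem Fn.mean_eq (F : Fn l) : meanW l g w β T =
    ∑ z ∈ (F.fin (T * β)).toFinset, w (l z / T) * g z :=
  finsum_mem_eq_finite_toFinset_sum (fun z : Z => w (l z / T) * g z) (F.fin (T * β))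

/-- the integrand as a finite sum -/
theorem Fn.integrand_eq (F : Fn l) (hT : 0 < T) {u : ℝ} (hu : u ≤ β) :
    deriv w u * GV l g (u * T) = ∑ z ∈ (F.fin (T * β)).toFinset,
      g z * (deriv w u * (if l z / T ≤ u then 1 else 0)) := by
  rw [F.G_ind (V := T * β) (by rw [mul_comm]; exact mul_le_mul_of_nonneg_left hu hT.le),
    Finset.mul_sum]
  refine Finset.sum_congr rfl fun z _ => ?_
  simp only [div_le_iff₀ hT]
  ring

theorem Fn.wG_int (F : Fn l) (hw : LipschitzWith K w) (hT : 0 < T) {x : ℝ} :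
    IntegrableOn (fun u => deriv w u * GV l g (u * T)) (Ioc x β) := by
  have h1 : IntegrableOn (fun u => ∑ z ∈ (F.fin (T * β)).toFinset,
      g z * (deriv w u * (if l z / T ≤ u then 1 else 0))) (Ioc x β) :=
    integrable_finsetSum _ fun z _ => (ind_integrable hw _ _ _).const_mul _
  exact h1.congr_fun (fun u hu => (F.integrand_eq hT hu.2).symm) measurableSet_Ioc

/-- **partial summation** -/
theorem Fn.abel (F : Fn l) (hw : LipschitzWith K w) (hβ : 0 < β) (hs : ∀ u, β < u → w u = 0)
    (hT : 0 < T) : meanW l g w β T = -∫ u in Ioc 0 β, deriv w u * GV l g (u * T) := by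
  rw [setIntegral_congr_fun measurableSet_Ioc (fun u hu => F.integrand_eq hT hu.2),
    integral_finsetSum _ fun z _ => (ind_integrable hw _ _ _).const_mul _, F.mean_eq,
    ← Finset.sum_neg_distrib]
  refine Finset.sum_congr rfl fun z hz => ?_
  rw [Set.Finite.mem_toFinset, Set.mem_ofPred_eq] at hz
  have hc : 0 < l z / T := div_pos (F.pos z) hT
  have hcb : l z / T ≤ β := by
    rw [div_le_iff₀ hT, mul_comm]
    exact hz
  rw [integral_const_mul, ind_int hw hs hc hcb]
  ring

theorem Fn.G_bdd (F : Fn l) (V : ℝ) : ∃ B : ℝ, 0 ≤ B ∧ ∀ v ≤ V, |GV l g v| ≤ B := by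
  refine ⟨∑ z ∈ (F.fin V).toFinset, |g z|, Finset.sum_nonneg fun _ _ => abs_nonneg _,
    fun v hv => ?_⟩
  rw [F.G_ind hv]
  refine (Finset.abs_sum_le_sum_abs _ _).trans (Finset.sum_le_sum fun z _ => ?_)
  rw [abs_mul]
  have h1 : |(if l z ≤ v then (1 : ℝ) else 0)| ≤ 1 := by split_ifs <;> simp
  calc |g z| * _ ≤ |g z| * 1 := mul_le_mul_of_nonneg_left h1 (abs_nonneg _)
    _ = _ := mul_one _

theorem Fn.G_int (F : Fn l) (hT : 0 < T) (x y : ℝ) :
    IntegrableOn (fun u => GV l g (u * T)) (Ioc x y) := by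
  have h1 : IntegrableOn (fun u => ∑ z ∈ (F.fin (T * y)).toFinset,
      g z * (if l z / T ≤ u then (1 : ℝ) else 0)) (Ioc x y) := by
    refine integrable_finsetSum _ fun z _ => Integrable.const_mul ?_ _
    refine Measure.integrableOn_of_bounded (M := 1) (by simp) ?_ ?_
    · exact (Measurable.ite measurableSet_Ici measurable_const measurable_const).aestronglyMeasurable
    · refine Eventually.of_forall fun u => ?_
      split_ifs <;> simp
  refine h1.congr_fun (fun u hu => ?_) measurableSet_Ioc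
  simp only
  rw [F.G_ind (V := T * y) (by rw [mul_comm]; exact mul_le_mul_of_nonneg_left hu.2 hT.le)]
  refine Finset.sum_congr rfl fun z _ => ?_
  simp only [div_le_iff₀ hT]

/-- **the law for Lipschitz weights** -/
theorem Fn.law (F : Fn l) {m c : ℝ} (hL : Tendsto (fun V : ℝ => (∫ v in (1 : ℝ)..V,
      |GV l g v - (m * Real.log v + c)|) / V) atTop (𝓝 0))
    (hw : LipschitzWith K w) (h0 : w 0 = 1) (hβ : 0 < β) (hs : ∀ u, β < u → w u = 0) :
    Tendsto (fun T : ℝ => meanW l g w β T - m * Real.log T) atTop (𝓝 (m * J w + c)) := by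
  have hK : (0 : ℝ) ≤ K := K.2
  obtain ⟨B, hB0, hB⟩ := F.G_bdd (g := g) 1
  set h : ℝ → ℝ := fun v => GV l g v - (m * Real.log v + c) with hh
  have hV : Tendsto (fun T : ℝ => (K * B + K * |c| + |m| * (K + K * β)) * (1 / T) +
      K * β * ((∫ v in (1 : ℝ)..(β * T), |h v|) / (β * T))) atTop (𝓝 0) := by
    have e1 : Tendsto (fun T : ℝ => β * T) atTop atTop := tendsto_id.const_mul_atTop hβ
    have e2 := (hL.comp e1).const_mul (K * β)
    have e3 : Tendsto (fun T : ℝ => 1 / T) atTop (𝓝 0) := by
      simpa using tendsto_inv_atTop_zero (𝕜 := ℝ)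
    have e4 := (e3.const_mul (K * B + K * |c| + |m| * (K + K * β))).add e2
    rw [mul_zero, mul_zero, add_zero] at e4
    exact e4
  rw [tendsto_iff_norm_sub_tendsto_zero]
  refine squeeze_zero' (Eventually.of_forall fun T => norm_nonneg _) ?_ hV
  filter_upwards [eventually_ge_atTop (max 1 (1 / β))] with T hT
  have hT1 : 1 ≤ T := (le_max_left _ _).trans hT
  have hTβ : 1 / β ≤ T := (le_max_right _ _).trans hT
  have hT0 : 0 < T := by linarith
  set ε : ℝ := 1 / T with hε
  have hε0 : 0 < ε := by positivity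
  have hε1 : ε ≤ 1 := by
    rw [hε, div_le_one hT0]
    exact hT1
  have hεβ : ε ≤ β := by
    rw [hε, div_le_iff₀ hT0]
    rw [div_le_iff₀ hβ] at hTβ
    linarith
  have hεT : ∀ u : ℝ, u / ε = u * T := fun u => by
    rw [hε]
    field_simp
  -- split the integral
  have s1 : meanW l g w β T = -(∫ u in Ioc 0 ε, deriv w u * GV l g (u * T)) -
      ∫ u in Ioc ε β, deriv w u * GV l g (u * T) := by
    rw [F.abel hw hβ hs hT0, ← Ioc_union_Ioc_eq_Ioc hε0.le hεβ, setIntegral_union
      (Ioc_disjoint_Ioc_of_le le_rfl) measurableSet_Ioc ((F.wG_int (β := β) hw hT0).mono_set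
        (Ioc_subset_Ioc_right hεβ)) (F.wG_int hw hT0)]
    ring
  have hgi : IntegrableOn (fun u => deriv w u * (m * Real.log (u / ε) + c)) (Ioc ε β) := by
    have : ContinuousOn (fun u => m * Real.log (u / ε) + c) (Icc ε β) := by
      refine ContinuousOn.add (ContinuousOn.mul continuousOn_const ?_) continuousOn_const
      refine ContinuousOn.log (continuousOn_id.div_const ε) fun u hu => ?_
      exact (div_pos (hε0.trans_le hu.1) hε0).ne'
    obtain ⟨C, hC⟩ := isCompact_Icc.exists_bound_of_continuousOn this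
    refine Measure.integrableOn_of_bounded (M := K * C) (by simp) ?_ ?_
    · refine ((measurable_deriv w).mul ?_).aestronglyMeasurable
      fun_prop
    · rw [ae_restrict_iff' measurableSet_Ioc]
      refine Eventually.of_forall fun u hu => ?_
      rw [norm_mul]
      exact mul_le_mul (norm_deriv_le_of_lipschitz hw) (hC u ⟨hu.1.le, hu.2⟩) (norm_nonneg _) hK
  have hhi : IntegrableOn (fun u => h (u * T)) (Ioc ε β) := by
    have h1 := F.G_int (g := g) hT0 ε β
    have h2 : IntegrableOn (fun u => m * Real.log (u * T) + c) (Ioc ε β) := by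
      have : ContinuousOn (fun u => m * Real.log (u * T) + c) (Icc ε β) := by
        refine ContinuousOn.add (ContinuousOn.mul continuousOn_const ?_) continuousOn_const
        refine ContinuousOn.log (continuousOn_id.mul continuousOn_const) fun u hu => ?_
        exact (mul_pos (hε0.trans_le hu.1) hT0).ne'
      exact (this.integrableOn_Icc).mono_set Ioc_subset_Icc_self
    exact h1.sub h2
  have hwh : IntegrableOn (fun u => deriv w u * h (u * T)) (Ioc ε β) := by
    refine Integrable.bdd_mul hhi (measurable_deriv w).aestronglyMeasurable (c := K) ?_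
    exact Eventually.of_forall fun u => norm_deriv_le_of_lipschitz hw
  have s2 : ∫ u in Ioc ε β, deriv w u * GV l g (u * T) =
      (-(w ε * c) - m * ∫ u in ε..β, w u / u) + ∫ u in Ioc ε β, deriv w u * h (u * T) := by
    rw [← parts hw hs hε0 hεβ m c, intervalIntegral.integral_of_le hεβ, ← integral_add hgi hwh]
    refine setIntegral_congr_fun measurableSet_Ioc fun u _ => ?_
    simp only [hh, hεT]
    ring
  have b1 : |∫ u in Ioc 0 ε, deriv w u * GV l g (u * T)| ≤ K * B * ε := by
    have := norm_setIntegral_le_of_norm_le_const (μ := volume) (s := Ioc 0 ε)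
      (f := fun u => deriv w u * GV l g (u * T)) (C := K * B) (by simp) fun u hu => by
        rw [norm_mul]
        refine mul_le_mul (norm_deriv_le_of_lipschitz hw) (hB _ ?_) (norm_nonneg _) hK
        have := mul_le_mul_of_nonneg_right hu.2 hT0.le
        rwa [hε, one_div_mul_cancel hT0.ne'] at this
    rw [Real.norm_eq_abs] at this
    refine this.trans (le_of_eq ?_)
    rw [measureReal_def, Real.volume_Ioc, sub_zero, ENNReal.toReal_ofReal hε0.le]
  have b2 : |∫ u in Ioc ε β, deriv w u * h (u * T)| ≤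
      K * β * ((∫ v in (1 : ℝ)..(β * T), |h v|) / (β * T)) := by
    have h1 : ‖∫ u in Ioc ε β, deriv w u * h (u * T)‖ ≤ ∫ u in Ioc ε β, K * |h (u * T)| := by
      refine norm_integral_le_of_norm_le (hhi.abs.const_mul _) (Eventually.of_forall fun u => ?_)
      rw [norm_mul]
      exact mul_le_mul_of_nonneg_right (norm_deriv_le_of_lipschitz hw) (abs_nonneg _)
    rw [Real.norm_eq_abs, integral_const_mul] at h1
    have h2 : ∫ u in Ioc ε β, |h (u * T)| = (∫ v in (1 : ℝ)..(β * T), |h v|) / T := by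
      rw [← intervalIntegral.integral_of_le hεβ,
        intervalIntegral.integral_comp_mul_right (fun v => |h v|) hT0.ne', hε,
        one_div_mul_cancel hT0.ne', smul_eq_mul, div_eq_inv_mul]
    rw [h2] at h1
    refine h1.trans (le_of_eq ?_)
    field_simp
  have b3 := A_close hw h0 hβ hs hε0 hε1 hεβ
  have hlog : Real.log ε = -Real.log T := by rw [hε, one_div, Real.log_inv]
  rw [hlog] at b3
  have b4 := w_near hw h0 hε0.le
  have e1 : meanW l g w β T - m * Real.log T - (m * J w + c) =
      -(∫ u in Ioc 0 ε, deriv w u * GV l g (u * T)) - (∫ u in Ioc ε β, deriv w u * h (u * T)) +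
      (w ε - 1) * c + m * ((∫ u in ε..β, w u / u) + -Real.log T - J w) := by
    rw [s1, s2]
    ring
  rw [Real.norm_eq_abs, e1]
  have c3 : |(w ε - 1) * c| ≤ K * ε * |c| := by
    rw [abs_mul]
    exact mul_le_mul_of_nonneg_right b4 (abs_nonneg _)
  have c4 : |m * ((∫ u in ε..β, w u / u) + -Real.log T - J w)| ≤ |m| * ((K + K * β) * ε) := by
    rw [abs_mul]
    exact mul_le_mul_of_nonneg_left b3 (abs_nonneg _)
  refine (abs_add_le _ _).trans ?_
  refine (add_le_add ((abs_add_le _ _).trans (add_le_add (abs_sub _ _) c3)) c4).trans ?_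
  rw [abs_neg]
  have : K * B * ε + K * β * ((∫ v in (1 : ℝ)..(β * T), |h v|) / (β * T)) + K * ε * |c| +
      |m| * ((K + K * β) * ε) = (K * B + K * |c| + |m| * (K + K * β)) * ε +
      K * β * ((∫ v in (1 : ℝ)..(β * T), |h v|) / (β * T)) := by ring
  linarith

end

end Pool.Agent.Q284.M
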