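import Pool.Agent.TH270.MS.BM
import Pool.Agent.TH270.MS.Tail
import Pool.Agent.Q284.M.Frob

/-!
# Sharp Euler products of a system of primes: primes and prime powers, in logarithmic mean
-/

set_option autoImplicit false

open MeasureTheory Filter Topology Set Complex
open Pool.Agent.TH942.ES
open Pool.Agent.TH270.MS

namespace Pool.Agent.Q284.M

section fin

variable {Z : Type} {M : Z → ℝ}

lemma fin_sum (hfin : ∀ Y : ℝ, {z | M z ≤ Y}.Finite) (c : Z → ℝ) (y : ℝ) :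
    (∑ᶠ (z : Z) (_ : M z ≤ y), c z) = ∑ z ∈ (hfin y).toFinset, c z :=
  finsum_mem_eq_finite_toFinset_sum (fun z : Z => c z) (hfin y)

lemma mono_fin (hfin : ∀ Y : ℝ, {z | M z ≤ Y}.Finite) {c : Z → ℝ} (hc : ∀ z, 0 ≤ c z) :
    Monotone fun y : ℝ => ∑ᶠ (z : Z) (_ : M z ≤ y), c z := by
  intro y y' h
  simp only [fin_sum hfin]
  refine Finset.sum_le_sum_of_subset_of_nonneg (fun z hz => ?_) fun z _ _ => hc z
  rw [Set.Finite.mem_toFinset, Set.mem_ofPred_eq] at hz ⊢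
  exact hz.trans h

/-- the partial sums are measurable -/
lemma meas_fin (hfin : ∀ Y : ℝ, {z | M z ≤ Y}.Finite) (c : Z → ℝ) :
    Measurable fun y : ℝ => ∑ᶠ (z : Z) (_ : M z ≤ y), c z := by
  have h1 := (mono_fin hfin (c := fun z => max (c z) 0) fun z => le_max_right _ _).measurable
  have h2 := (mono_fin hfin (c := fun z => max (-c z) 0) fun z => le_max_right _ _).measurable
  have h3 : (fun y : ℝ => ∑ᶠ (z : Z) (_ : M z ≤ y), c z) =
      fun y => (∑ᶠ (z : Z) (_ : M z ≤ y), max (c z) 0) -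
        ∑ᶠ (z : Z) (_ : M z ≤ y), max (-c z) 0 := by
    funext y
    rw [fin_sum hfin, fin_sum hfin, fin_sum hfin, ← Finset.sum_sub_distrib]
    refine Finset.sum_congr rfl fun z _ => ?_
    rcases le_total 0 (c z) with h | h
    · rw [max_eq_left h, max_eq_right (by linarith)]
      ring
    · rw [max_eq_right h, max_eq_left (by linarith)]
      ring
  rw [h3]
  exact h1.sub h2

/-- the partial sums are measurable and locally bounded -/
lemma bm_fin (hfin : ∀ Y : ℝ, {z | M z ≤ Y}.Finite) (c : Z → ℝ) :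
    BM fun y : ℝ => ∑ᶠ (z : Z) (_ : M z ≤ y), c z := by
  refine ⟨(meas_fin hfin c).aestronglyMeasurable, fun Y => ?_⟩
  refine ⟨∑ z ∈ (hfin Y).toFinset, |c z|, fun y _ h2 => ?_⟩
  simp only [fin_sum hfin]
  refine (Finset.abs_sum_le_sum_abs _ _).trans ?_
  refine Finset.sum_le_sum_of_subset_of_nonneg (fun z hz => ?_) fun z _ _ => abs_nonneg _
  rw [Set.Finite.mem_toFinset, Set.mem_ofPred_eq] at hz ⊢
  exact hz.trans h2

end fin

section close

variable {X : Type} {d : ℕ} {N : X → ℕ} {α : X → Fin d → ℂ}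

lemma cP_two (E : Sys N α) (v : X) : |cP N α (v, 1)| ≤ d * (N v : ℝ)⁻¹ := by
  have hN := E.Npos v
  have h1 : ∀ j, ‖zv N α v j ^ 2‖ ≤ (N v : ℝ)⁻¹ := by
    intro j
    unfold zv
    rw [norm_pow, norm_div, Complex.norm_real, Real.norm_of_nonneg (Real.sqrt_nonneg _), div_pow,
      Real.sq_sqrt hN.le, div_eq_mul_inv]
    have h2 := pow_le_one₀ (n := 2) (norm_nonneg (α v j)) (E.le v j)
    have h3 : 0 < (N v : ℝ)⁻¹ := by positivity
    nlinarith
  have h2 : ‖∑ j, zv N α v j ^ 2‖ ≤ d * (N v : ℝ)⁻¹ := by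
    refine (norm_sum_le_of_le _ fun j _ => h1 j).trans (le_of_eq ?_)
    rw [Finset.sum_const, Finset.card_univ, Fintype.card_fin, nsmul_eq_mul]
  unfold cP
  have h3 := (Complex.abs_re_le_norm (∑ j, zv N α v j ^ 2)).trans h2
  simp only [Nat.cast_one]
  rw [abs_div, abs_of_pos (by norm_num : (0 : ℝ) < 1 + 1)]
  have h4 := abs_nonneg (∑ j, zv N α v j ^ 2).re
  have h5 : (∑ j, zv N α v j ^ (1 + 1)) = ∑ j, zv N α v j ^ 2 := rfl
  rw [h5]
  linarith [div_le_self h4 (by norm_num : (1 : ℝ) ≤ 1 + 1)]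

/-- `∑ 1 / N v` over `√Y < N v ≤ Y` is bounded -/
lemma mid_bound (E : Sys N α) : ∃ M : ℝ, ∀ Y : ℝ, 1 ≤ Y →
    ∀ s : Finset X, (∀ v ∈ s, √Y < N v ∧ (N v : ℝ) ≤ Y) → ∑ v ∈ s, (N v : ℝ)⁻¹ ≤ M := by
  obtain ⟨C, σ₀, hσ₀, hC⟩ := E.log_sum
  obtain ⟨Y₁, hY₁, hY₁'⟩ : ∃ Y₁ : ℝ, 1 < Y₁ ∧ ∀ Y : ℝ, Y₁ ≤ Y → (Real.log Y)⁻¹ < σ₀ := by
    refine ⟨Real.exp (σ₀⁻¹ + 1), Real.one_lt_exp_iff.2 (by positivity), fun Y hY => ?_⟩
    have h1 : σ₀⁻¹ + 1 ≤ Real.log Y :=
      (Real.le_log_iff_exp_le ((Real.exp_pos _).trans_le hY)).2 hY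
    have h2 : 0 < σ₀⁻¹ := by positivity
    rw [inv_lt_comm₀ (by linarith) hσ₀]
    linarith
  refine ⟨max (2 * Real.exp 1 * C) (∑ v ∈ (E.fin_le Y₁).toFinset, (N v : ℝ)⁻¹), fun Y hY s hs => ?_⟩
  rcases le_or_gt Y₁ Y with h | h
  · refine le_trans ?_ (le_max_left _ _)
    have hlog : 0 < Real.log Y := Real.log_pos (by linarith)
    have hσ : 0 < (Real.log Y)⁻¹ := by positivity
    obtain ⟨h1, h2⟩ := hC _ hσ (hY₁' Y h)
    have h3 : ∀ v ∈ s, (N v : ℝ)⁻¹ ≤ 2 * Real.exp 1 * ((Real.log Y)⁻¹ *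
        (Real.log (N v) * (N v : ℝ) ^ (-(1 + (Real.log Y)⁻¹)))) := by
      intro v hv
      obtain ⟨h4, h5⟩ := hs v hv
      have hN := E.Npos v
      have hsq : 0 < √Y := Real.sqrt_pos.2 (by linarith)
      have h6 : Real.log Y / 2 ≤ Real.log (N v) := by
        have h7 := Real.log_le_log hsq h4.le
        rwa [Real.log_sqrt (by linarith)] at h7
      have h7 : Real.exp (-1) ≤ (N v : ℝ) ^ (-(Real.log Y)⁻¹) := by
        rw [Real.rpow_def_of_pos hN]
        apply Real.exp_le_exp.2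
        have h8 := Real.log_le_log hN h5
        have h9 : Real.log (N v) * (Real.log Y)⁻¹ ≤ 1 := by
          rw [← div_eq_mul_inv, div_le_one hlog]
          exact h8
        linarith
      have h8 : (N v : ℝ) ^ (-(1 + (Real.log Y)⁻¹)) =
          (N v : ℝ)⁻¹ * (N v : ℝ) ^ (-(Real.log Y)⁻¹) := by
        rw [neg_add, Real.rpow_add hN, Real.rpow_neg_one]
      rw [h8]
      have h9 : 1 ≤ 2 * ((Real.log Y)⁻¹ * Real.log (N v)) := by
        rw [← div_eq_inv_mul, mul_div_assoc', le_div_iff₀ hlog]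
        linarith
      have h10 : 1 ≤ Real.exp 1 * (N v : ℝ) ^ (-(Real.log Y)⁻¹) := by
        have h11 := mul_le_mul_of_nonneg_left h7 (Real.exp_pos 1).le
        rwa [← Real.exp_add, add_neg_cancel, Real.exp_zero] at h11
      have hNi : 0 < (N v : ℝ)⁻¹ := by positivity
      calc (N v : ℝ)⁻¹ = 1 * 1 * (N v : ℝ)⁻¹ := by ring
        _ ≤ (2 * ((Real.log Y)⁻¹ * Real.log (N v))) *
            (Real.exp 1 * (N v : ℝ) ^ (-(Real.log Y)⁻¹)) * (N v : ℝ)⁻¹ := by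
          gcongr
        _ = _ := by ring
    refine (Finset.sum_le_sum h3).trans ?_
    rw [← Finset.mul_sum, ← Finset.mul_sum]
    have h4 : ∑ v ∈ s, Real.log (N v) * (N v : ℝ) ^ (-(1 + (Real.log Y)⁻¹)) ≤
        ∑' v, Real.log (N v) * (N v : ℝ) ^ (-(1 + (Real.log Y)⁻¹)) :=
      h1.sum_le_tsum _ fun v _ => by
        have := E.logN v
        have := E.Npos v
        positivity
    have h5 := (mul_le_mul_of_nonneg_left h4 hσ.le).trans h2
    have h6 := Real.exp_pos 1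
    gcongr
  · refine le_trans ?_ (le_max_right _ _)
    refine Finset.sum_le_sum_of_subset_of_nonneg (fun v hv => ?_) fun v _ _ => ?_
    · rw [Set.Finite.mem_toFinset, Set.mem_ofPred_eq]
      exact ((hs v hv).2.trans h.le)
    · have := E.Npos v
      positivity

/-- the sums over the primes and over the prime powers differ by a bounded function -/
theorem close (E : Sys N α) : ∃ M : ℝ, ∀ Y : ℝ, 1 ≤ Y →
    |(∑ᶠ (v : X) (_ : (N v : ℝ) ≤ Y), cv N α v) + Pl N α Y| ≤ M := by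
  obtain ⟨C, hC⟩ := sharp_tail E
  obtain ⟨M, hM⟩ := mid_bound E
  refine ⟨|C| + d * M, fun Y hY => ?_⟩
  have h1 := hC Y hY
  have hB : {v : X | √Y < N v ∧ (N v : ℝ) ≤ Y}.Finite := (E.fin_le Y).subset fun v hv => hv.2
  have e2 : (∑ᶠ (v : X) (_ : √Y < N v ∧ (N v : ℝ) ≤ Y), cP N α (v, 1)) =
      ∑ v ∈ hB.toFinset, cP N α (v, 1) :=
    finsum_mem_eq_finite_toFinset_sum (fun v : X => cP N α (v, 1)) hB
  have h2 : |∑ᶠ (v : X) (_ : √Y < N v ∧ (N v : ℝ) ≤ Y), cP N α (v, 1)| ≤ d * M := by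
    rw [e2]
    refine (Finset.abs_sum_le_sum_abs _ _).trans ?_
    refine (Finset.sum_le_sum fun v _ => cP_two E v).trans ?_
    rw [← Finset.mul_sum]
    refine mul_le_mul_of_nonneg_left (hM Y hY _ fun v hv => ?_) (Nat.cast_nonneg _)
    rw [Set.Finite.mem_toFinset] at hv
    exact hv
  have h3 : C * Y ^ (-(1 / 12 : ℝ)) ≤ |C| := by
    have h4 : Y ^ (-(1 / 12 : ℝ)) ≤ 1 := Real.rpow_le_one_of_one_le_of_nonpos hY (by norm_num)
    have h5 : 0 ≤ Y ^ (-(1 / 12 : ℝ)) := by positivity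
    calc C * Y ^ (-(1 / 12 : ℝ)) ≤ |C| * Y ^ (-(1 / 12 : ℝ)) :=
          mul_le_mul_of_nonneg_right (le_abs_self C) h5
      _ ≤ |C| * 1 := mul_le_mul_of_nonneg_left h4 (abs_nonneg C)
      _ = |C| := mul_one _
  have h4 := h1.trans h3
  rw [abs_le] at h2 h4 ⊢
  constructor <;> linarith [h2.1, h2.2, h4.1, h4.2]

/-- primes and prime powers: bounded logarithmic means -/
theorem mean_iff (E : Sys N α) (ρ : ℝ) :
    (∃ B : ℝ, ∀ᶠ Y : ℝ in atTop,
      ∫ y in Real.exp 1..Y, |Pl N α y + ρ * Real.log (Real.log y)| / y ≤ B * Real.log Y) ↔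
    ∃ B : ℝ, ∀ᶠ Y : ℝ in atTop, ∫ y in Real.exp 1..Y,
      |-(∑ᶠ (v : X) (_ : (N v : ℝ) ≤ y), cv N α v) + ρ * Real.log (Real.log y)| / y ≤
        B * Real.log Y := by
  obtain ⟨M, hM⟩ := close E
  have bm1 : BM fun y => Pl N α y + ρ * Real.log (Real.log y) :=
    (bm_fin (M := fun p : X × ℕ => (N p.1 : ℝ) ^ (p.2 + 1)) E.finS (cP N α)).add
      ((BM.const ρ).mul BM.loglog)
  have bm2 : BM fun y => -(∑ᶠ (v : X) (_ : (N v : ℝ) ≤ y), cv N α v) +
      ρ * Real.log (Real.log y) :=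
    (bm_fin (M := fun v : X => (N v : ℝ)) E.fin_le (cv N α)).neg.add
      ((BM.const ρ).mul BM.loglog)
  have hd : ∀ y : ℝ, Real.exp 1 ≤ y → |(Pl N α y + ρ * Real.log (Real.log y)) -
      (-(∑ᶠ (v : X) (_ : (N v : ℝ) ≤ y), cv N α v) + ρ * Real.log (Real.log y))| ≤ M := by
    intro y hy
    have h1 : 1 ≤ y := (Real.one_le_exp zero_le_one).trans hy
    have h2 := hM y h1
    have h3 : (Pl N α y + ρ * Real.log (Real.log y)) -
      (-(∑ᶠ (v : X) (_ : (N v : ℝ) ≤ y), cv N α v) + ρ * Real.log (Real.log y)) =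
      (∑ᶠ (v : X) (_ : (N v : ℝ) ≤ y), cv N α v) + Pl N α y := by ring
    rw [h3]
    exact h2
  constructor
  · exact bmean_of bm1.li bm2.li hd
  · refine bmean_of bm2.li bm1.li (M := M) fun y hy => ?_
    rw [abs_sub_comm]
    exact hd y hy

end close

end Pool.Agent.Q284.M
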